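import Pool.Agent.H38.ET8.W247.ET.Stm

/-! Project ET, part ET-ENE. -/

set_option autoImplicit false

open Finset MeasureTheory

namespace Pool.Agent.W73.ET.ENE

open Pool.Agent.W247.ET

theorem P2_bound (u v t : ℝ) (hu : 0 ≤ u) (hut : u ≤ t) (hv : 0 ≤ v) (hvt : v ≤ t) :
    |P2 u v| ≤ 8 * t ^ 3 + 8 * t ^ 2 + 4 * t + 4 := by
  have ht : 0 ≤ t := hu.trans hut
  have h1 : 0 ≤ u * v := mul_nonneg hu hv
  have h2 : u * v ≤ t ^ 2 := by
    rw [sq]
    exact mul_le_mul hut hvt hv ht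
  have h3 : 0 ≤ u + v := add_nonneg hu hv
  have h4 : u + v ≤ 2 * t := by linarith
  have h5 : 0 ≤ (u + v) * (u * v) := mul_nonneg h3 h1
  have h6 : (u + v) * (u * v) ≤ 2 * t * t ^ 2 := mul_le_mul h4 h2 h1 (by linarith)
  have h7 : (u + v) ^ 2 ≤ (2 * t) ^ 2 := pow_le_pow_left₀ h3 h4 2
  have h8 : 0 ≤ t ^ 3 := by positivity
  have h9 : 0 ≤ t ^ 2 := by positivity
  unfold P2
  rw [abs_le]
  constructor <;> nlinarith

theorem Q_exp (t : ℝ) (ht : 0 ≤ t) :
    8 * t ^ 3 + 8 * t ^ 2 + 4 * t + 4 ≤ 384 * Real.exp (t / 2) := by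
  have h := Real.sum_le_exp_of_nonneg (show 0 ≤ t / 2 by linarith) 4
  simp only [Finset.sum_range_succ, Finset.sum_range_zero, Nat.factorial] at h
  norm_num at h
  have h8 : 0 ≤ t ^ 3 := by positivity
  have h9 : 0 ≤ t ^ 2 := by positivity
  nlinarith

theorem kf_bound (a x b z n y : ℝ) (ha : 0 ≤ a) (hx : 0 ≤ x) (hb : 0 ≤ b) (hz : 0 ≤ z)
    (h1 : a + z = n) (h2 : x + b = n) (hy : 0 < y) :
    ‖kf P2 a x b z y‖ ≤ 147456 * Real.exp (-n * y) := by
  have hn : 0 ≤ n := by linarith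
  have ht : 0 ≤ n * y := by positivity
  have e1 := P2_bound (a * y) (x * y) (n * y) (by positivity) (by nlinarith) (by positivity)
    (by nlinarith)
  have e2 := P2_bound (b * y) (z * y) (n * y) (by positivity) (by nlinarith) (by positivity)
    (by nlinarith)
  have e3 := Q_exp (n * y) ht
  have e4 := e1.trans e3
  have e5 := e2.trans e3
  unfold kf
  rw [Real.norm_eq_abs, abs_mul, abs_mul, abs_of_pos (Real.exp_pos _)]
  calc |P2 (a * y) (x * y)| * |P2 (b * y) (z * y)| * Real.exp (-((a + x + b + z) * y))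
      ≤ (384 * Real.exp (n * y / 2)) * (384 * Real.exp (n * y / 2)) *
        Real.exp (-((a + x + b + z) * y)) := by
        refine mul_le_mul_of_nonneg_right ?_ (Real.exp_pos _).le
        exact mul_le_mul e4 e5 (abs_nonneg _) (by positivity)
    _ = 147456 * (Real.exp (n * y / 2) * Real.exp (n * y / 2) *
        Real.exp (-((a + x + b + z) * y))) := by ring
    _ = 147456 * Real.exp (-n * y) := by
        rw [← Real.exp_add, ← Real.exp_add]
        congr 2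
        have : a + x + b + z = 2 * n := by linarith
        rw [this]
        ring

theorem KK_le (a x b z n : ℝ) (ha : 0 ≤ a) (hx : 0 ≤ x) (hb : 0 ≤ b) (hz : 0 ≤ z)
    (h1 : a + z = n) (h2 : x + b = n) (hn : 0 < n) : KK P2 a x b z ≤ 147456 / n := by
  unfold KK
  have hg : Integrable (fun y : ℝ => 147456 * Real.exp (-n * y))
      (volume.restrict (Set.Ioi (0 : ℝ))) :=
    (integrableOn_exp_mul_Ioi (neg_lt_zero.2 hn) 0).const_mul _
  refine (le_abs_self _).trans ?_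
  rw [← Real.norm_eq_abs]
  refine (norm_integral_le_of_norm_le hg ((ae_restrict_iff' measurableSet_Ioi).2
    (Filter.Eventually.of_forall fun y hy => kf_bound a x b z n y ha hx hb hz h1 h2 hy))).trans
    (le_of_eq ?_)
  rw [integral_const_mul, integral_exp_mul_Ioi (neg_lt_zero.2 hn), mul_zero, Real.exp_zero]
  field_simp

theorem card_fib (B : Finset ℕ) (n : ℕ) :
    ((quads B 0 0).filter (fun q => q.1.1 + q.2.2 = n)).card ≤ rep B n * rep B n := by
  unfold rep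
  rw [← Finset.card_product]
  refine Finset.card_le_card_of_injOn
    (fun q : (ℕ × ℕ) × (ℕ × ℕ) => ((q.1.1, q.2.2), (q.1.2, q.2.1))) ?_ ?_
  · intro q hq
    have hq' := Finset.mem_filter.1 (Finset.mem_coe.1 hq)
    have hq2 := Finset.mem_filter.1 hq'.1
    have hq3 := Finset.mem_product.1 hq2.1
    have hq4 := Finset.mem_product.1 hq3.1
    have hq5 := Finset.mem_product.1 hq3.2
    refine Finset.mem_coe.2 (Finset.mem_product.2 ⟨Finset.mem_filter.2
      ⟨Finset.mem_product.2 ⟨hq4.1, hq5.2⟩, hq'.2⟩, Finset.mem_filter.2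
      ⟨Finset.mem_product.2 ⟨hq4.2, hq5.1⟩, ?_⟩⟩)
    have := hq2.2
    have h2 := hq'.2
    show q.1.2 + q.2.1 = n
    omega
  · rintro ⟨⟨a, b⟩, ⟨c, d⟩⟩ _ ⟨⟨a', b'⟩, ⟨c', d'⟩⟩ _ h
    simp only [Prod.mk.injEq] at h ⊢
    exact ⟨⟨h.1.1, h.2.1⟩, h.2.2, h.1.2⟩

theorem main : ENE_stmt := by
  refine ⟨147456, by norm_num, fun B N hB => ?_⟩
  have hpos : ∀ q ∈ quads B 0 0, 1 ≤ q.1.1 ∧ 1 ≤ q.1.2 ∧ 1 ≤ q.2.1 ∧ 1 ≤ q.2.2 ∧
      q.1.1 ≤ N ∧ q.2.2 ≤ N ∧ q.1.1 + q.2.2 = q.1.2 + q.2.1 := by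
    intro q hq
    have hq2 := Finset.mem_filter.1 hq
    have hq3 := Finset.mem_product.1 hq2.1
    have hq4 := Finset.mem_product.1 hq3.1
    have hq5 := Finset.mem_product.1 hq3.2
    have a1 := Finset.mem_Icc.1 (hB hq4.1)
    have a2 := Finset.mem_Icc.1 (hB hq4.2)
    have a3 := Finset.mem_Icc.1 (hB hq5.1)
    have a4 := Finset.mem_Icc.1 (hB hq5.2)
    have a5 := hq2.2
    exact ⟨a1.1, a2.1, a3.1, a4.1, a1.2, a4.2, by omega⟩
  have h1 : QS P2 B 0 0 ≤ ∑ q ∈ quads B 0 0, 147456 / (((q.1.1 + q.2.2 : ℕ) : ℝ)) := by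
    unfold QS
    refine Finset.sum_le_sum fun q hq => ?_
    obtain ⟨b1, b2, b3, b4, b5, b6, b7⟩ := hpos q hq
    refine KK_le _ _ _ _ _ (Nat.cast_nonneg _) (Nat.cast_nonneg _) (Nat.cast_nonneg _)
      (Nat.cast_nonneg _) (by push_cast; ring) ?_ ?_
    · rw [b7]
      push_cast
      ring
    · exact Nat.cast_pos.2 (by omega)
  refine h1.trans ?_
  rw [← Finset.sum_fiberwise_of_maps_to (s := quads B 0 0) (t := Icc 1 (2 * N))
    (g := fun q => q.1.1 + q.2.2) (fun q hq => by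
      obtain ⟨b1, b2, b3, b4, b5, b6, b7⟩ := hpos q hq
      exact Finset.mem_Icc.2 ⟨by omega, by omega⟩), Finset.mul_sum]
  refine Finset.sum_le_sum fun n hn => ?_
  have hn1 := (Finset.mem_Icc.1 hn).1
  have hn0 : (0 : ℝ) < (n : ℝ) := Nat.cast_pos.2 (by omega)
  have h2 : ∑ q ∈ (quads B 0 0).filter (fun q => q.1.1 + q.2.2 = n),
      147456 / (((q.1.1 + q.2.2 : ℕ) : ℝ)) =
      (((quads B 0 0).filter (fun q => q.1.1 + q.2.2 = n)).card : ℝ) * (147456 / (n : ℝ)) := by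
    rw [Finset.sum_congr rfl (g := fun _ => 147456 / (n : ℝ)), Finset.sum_const, nsmul_eq_mul]
    intro q hq
    rw [(Finset.mem_filter.1 hq).2]
  rw [h2]
  have h3 : (((quads B 0 0).filter (fun q => q.1.1 + q.2.2 = n)).card : ℝ) ≤
      (rep B n : ℝ) * (rep B n : ℝ) := by exact_mod_cast card_fib B n
  calc (((quads B 0 0).filter (fun q => q.1.1 + q.2.2 = n)).card : ℝ) * (147456 / (n : ℝ))
      ≤ (rep B n : ℝ) * (rep B n : ℝ) * (147456 / (n : ℝ)) :=
        mul_le_mul_of_nonneg_right h3 (by positivity)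
    _ = 147456 * ((rep B n : ℝ) ^ 2 / n) := by ring

end Pool.Agent.W73.ET.ENE
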